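import Pool.Agent.W525.CB.Stm

/-!
# Project CB, part DIM: the dimension of the differentials is at least the transcendence degree
-/

open Cardinal

namespace Pool.Agent.W853.CB.DIM

open Pool.Agent.W525.CB

theorem main : S_DIM := by
  intro k _ _ p _ _ L _ _ S hS ι _ v hcard hspan
  classical
  have hess : Algebra.EssFiniteType k L := IntermediateField.fg_top_iff.mp ⟨S, hS⟩
  have hfin : Module.Finite L (Ω[L⁄ℤ]) :=
    ⟨⟨Finset.univ.image v, by simpa using hspan⟩⟩
  apply linearIndependent_of_top_le_span_of_card_le_finrank hspan.ge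
  obtain ⟨κ, a, ha, hsp, hli⟩ := exists_linearIndependent' L (KaehlerDifferential.D ℤ L)
  rw [KaehlerDifferential.span_range_derivation] at hsp
  have hκ : Finite κ := by
    have := hli.finite
    exact this
  have : Fintype κ := Fintype.ofFinite κ
  have hbas : Module.finrank L (Ω[L⁄ℤ]) = Fintype.card κ := by
    have := Module.finrank_eq_card_basis (Module.Basis.mk hli hsp.ge)
    exact this
  rw [hbas]
  set K0 := IntermediateField.adjoin k (Set.range a) with hK0
  have hD : ∀ x : L, KaehlerDifferential.D K0 L x = 0 := by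
    let d : Derivation ℤ L (Ω[L⁄K0]) := (KaehlerDifferential.D K0 L).restrictScalars ℤ
    let f : Ω[L⁄ℤ] →ₗ[L] Ω[L⁄K0] := d.liftKaehlerDifferential
    have hf : ∀ x : L, f (KaehlerDifferential.D ℤ L x) = KaehlerDifferential.D K0 L x := by
      intro x
      exact d.liftKaehlerDifferential_comp_D x
    have hz : f = 0 := by
      apply LinearMap.ext_on_range hsp
      intro i
      simp only [Function.comp, LinearMap.zero_apply]
      rw [hf]
      have hmem : a i ∈ K0 := IntermediateField.subset_adjoin _ _ ⟨i, rfl⟩
      exact (KaehlerDifferential.D K0 L).map_algebraMap ⟨a i, hmem⟩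
    intro x
    rw [← hf, hz]
    rfl
  have hsub : Subsingleton (Ω[L⁄K0]) := by
    rw [← Submodule.subsingleton_iff L, ← subsingleton_iff_bot_eq_top,
      ← KaehlerDifferential.span_range_derivation, eq_comm, Submodule.span_eq_bot]
    rintro _ ⟨x, rfl⟩
    exact hD x
  have hur : Algebra.FormallyUnramified K0 L := ⟨hsub⟩
  have hess0 : Algebra.EssFiniteType K0 L := Algebra.EssFiniteType.of_comp k K0 L
  have hsep : Algebra.IsSeparable K0 L := Algebra.FormallyUnramified.isSeparable K0 L
  have halg : Algebra.IsAlgebraic K0 L := inferInstance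
  have halg' : Algebra.IsAlgebraic (Algebra.adjoin k (Set.range a)) L := by
    exact IntermediateField.isAlgebraic_adjoin_iff_top.mp halg
  obtain ⟨t, ht, htb⟩ := exists_isTranscendenceBasis_subset (R := k) (A := L) (Set.range a)
  have h1 : Algebra.trdeg k L ≤ (Fintype.card κ : Cardinal) := by
    rw [← htb.cardinalMk_eq_trdeg]
    calc #t ≤ #(Set.range a) := Cardinal.mk_le_mk_of_subset ht
      _ ≤ #κ := Cardinal.mk_range_le
      _ = Fintype.card κ := Cardinal.mk_fintype κ
  exact_mod_cast hcard.trans h1

end Pool.Agent.W853.CB.DIM
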